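/-
MP_12cf61_al, full answer to Q1: almost all transitive permutation groups have exponential graph
growth, i.e. Exp(n) / Perm(n) tends to 1.
-/
import Pool.Agent.Lib.TGX.A.GFew
import Pool.Agent.Lib.TGX.B.Prim
import Pool.Agent.Lib.TGX.C.NotPP
import Pool.Agent.Lib.TGX.D.Count

namespace Pool.Agent.Results.MP_12cf61_al.AlmostAll

open Equiv Filter Pool.Agent.Lib.TG12 Pool.Agent.Lib.TGX

/-- `permN n` is the number of permutation isomorphism classes of transitive permutation groups of
degree `1, ..., n` and `expN n` is the number of those classes whose groups have exponential graph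
growth.  Their quotient tends to `1`. -/
theorem result : Tendsto (fun n => (expN n : ℝ) / (permN n : ℝ)) atTop (nhds 1) := by
  obtain ⟨C, hC⟩ := exists_primBound
  exact count_main (fun d L h1 h2 => exp_of_not_PP L h1 h2) (few_gen C hC)

end Pool.Agent.Results.MP_12cf61_al.AlmostAll
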