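/-
MP_12cf61_al, partial result: the statement of Q1 holds inside the class of transitive `2`-groups.
Almost all transitive permutation groups that are `2`-groups have exponential graph growth.
-/
import Pool.Agent.Lib.MP_12cf61_al.Final
import Pool.Agent.Lib.MP_12cf61_al.Large

namespace Pool.Agent.Results.MP_12cf61_al.TwoGroups

open Equiv Filter Pool.Agent.Lib.TG12

/-- (1) `exp2 n / perm2 n → 1`, where `perm2 n` is the number of permutation isomorphism classes of
transitive `2`-groups of degree at most `n` and `exp2 n` the number of those classes whose groups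
have exponential graph growth.
(2) For all large `k`, at most a proportion `2 ^ (-(4 ^ k / k ^ 9))` of the classes of transitive
`2`-groups of degree `2 ^ (k + 1)` does not have exponential graph growth.
(3) Every transitive `2`-group of degree `m = 2 ^ (k + 1)` and of order larger than `2 ^ (m / 2)` has
exponential graph growth. -/
theorem result :
    Tendsto (fun n => (exp2 n : ℝ) / (perm2 n : ℝ)) atTop (nhds 1) ∧
    (∀ᶠ k : ℕ in atTop,
      numClasses {L ∈ T2 (Fin (2 ^ (k + 1))) | ¬ HasExpGrowth L} * 2 ^ (4 ^ k / k ^ 9) ≤
        numClasses (T2 (Fin (2 ^ (k + 1))))) ∧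
    (∀ (k : ℕ) (L : Subgroup (Perm (Fin (2 ^ (k + 1))))), L ∈ T2 (Fin (2 ^ (k + 1))) →
      2 ^ (2 ^ k) < Nat.card L → HasExpGrowth L) :=
  ⟨main, rate, fun k L hL h => large_order k L hL h⟩

end Pool.Agent.Results.MP_12cf61_al.TwoGroups
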